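import Pool.Agent.TH600.LC.Flat
import Pool.Agent.TH8.TEN.Asm
import Pool.Agent.TH8.TEN.Special

/-!
MP_1209e6_ag, Q1, the implication from (ii) to (i): a projective variety with a Zariski-dense entire
curve with homogeneous coordinates in the ring generated by the functions with linear differential
equations and the functions with Hadamard gaps is special.
-/

set_option autoImplicit false

namespace Pool.Agent.Results.MP_1209e6_ag.GapSpecial

open MvPolynomial Set
open Pool.Agent.W602.GT (IsForm)
open Pool.Agent.TH143 Pool.Agent.TH143.GT Pool.Agent.TH8.TEN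
open Pool.Agent.TH600.LC (InRing GapOver)

/-- Let `X` be the projective variety with the ideal `p`, the function field `K` and the generic
point `y`. Let `f` be an entire curve in `X`, given by entire functions without common zeros, which
is Zariski-dense in `X` and has homogeneous coordinates in the ring generated by the entire
functions that satisfy nontrivial linear differential equations with polynomial coefficients and
the entire functions with Hadamard gaps at `z₀`.

(1) `X` contains a Zariski-dense curve given by entire functions that satisfy nontrivial linear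
differential equations with polynomial coefficients.

(2) All tensor differentials of positive degree on the smooth projective models of `X` vanish.

(3) No subsheaf of rank one of a sheaf of `q`-forms, `q > 0`, has a positive power with a nonzero
section.

(4) `X` is special in the sense of Campana. -/
theorem result {n : ℕ} (p : Ideal (MvPolynomial (Fin (n + 1)) ℂ)) (K : Type) [Field K]
    [Algebra ℂ K] (w : ℕ) (y : Fin (n + 1) → K) (hy : FunField p 1 K w y) (z₀ : ℂ)
    (f : ℂ → Fin (n + 1) → ℂ) (hf : ∀ j, Differentiable ℂ (fun z => f z j)) (hne : ∀ z, f z ≠ 0)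
    (hX : ∀ z, ∀ H ∈ p, eval (f z) H = 0) (hd : ZDense p f univ)
    (hR : InRing (GapOver {u | Differentiable ℂ u ∧ PolODE u} z₀) f) :
    (∃ u : ℂ → Fin (n + 1) → ℂ, (∀ j, Differentiable ℂ (fun z => u z j)) ∧
      (∀ j, PolODE (fun z => u z j)) ∧ (∀ z, ∀ H ∈ p, IsForm H → eval (u z) H = 0) ∧
      ZDense p u univ) ∧
    (∀ q : ℕ, 0 < q → ∀ θ : MultilinearMap K (fun _ : Fin q => Derivation ℂ K K) K,
      HolTensor w θ → θ = 0) ∧
    (∀ q : ℕ, 0 < q → ∀ ω : Derivation ℂ K K [⋀^Fin q]→ₗ[K] K, ω ≠ 0 →
      ∀ m : ℕ, 0 < m → ∀ g : K, PowSec w ω m g → g = 0) ∧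
    Special K w := by
  obtain ⟨h, hh, hh0, hfh⟩ := hR
  have hhd : ∀ j, Differentiable ℂ (fun z => h z j) := fun j =>
    Pool.Agent.TH600.LC.gapOver_diff (fun u hu => hu.1) (hh j)
  obtain ⟨u, hu, hfu⟩ := Pool.Agent.TH600.LC.exists_dfin_tr
    (Y := {u | Differentiable ℂ u ∧ PolODE u}) (fun u hu => hu) hh
  have hforms : ∀ G : MvPolynomial (Fin (n + 1)) ℂ, (∃ e, G.IsHomogeneous e) →
      ((∀ z, eval (f z) G = 0) ↔ ∀ z, eval (u z) G = 0) := fun G hG =>
    (Pool.Agent.TH600.LC.forms_iff hf hhd ⟨0, hne 0⟩ hh0 hfh hG).trans (hfu G hG)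
  have hgu := Pool.Agent.TH600.LC.genPt_forms hforms (hy.genPt (fun z _ => hX z) hd)
  have h1 : ∀ q : ℕ, 0 < q → ∀ θ : MultilinearMap K (fun _ : Fin q => Derivation ℂ K K) K,
      HolTensor w θ → θ = 0 := fun q hq θ hθ =>
    tensor_vanish hgu (fun j => (hu j).1) (fun j => (hu j).2) hq hθ
  refine ⟨⟨u, fun j => (hu j).1, fun j => (hu j).2, fun z H hH hHf => ?_, fun G hG h0 => ?_⟩, h1,
    fun q hq ω hω m hm g hg => powSec_zero h1 hq hω hm hg, special_of_tensor h1⟩
  · exact (hforms H hHf).1 (fun z => hX z H hH) z
  · exact hd G hG fun z _ => (hforms G hG).2 (fun z => h0 z (mem_univ z)) z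

end Pool.Agent.Results.MP_1209e6_ag.GapSpecial
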