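import Pool.Agent.TH178.GM.Hub

/-!
# Zariski dense entire curves from families of curves of genus at most one

Every complex variety is birational to an irreducible hypersurface `F = 0` in affine space. Suppose
that through the points `x` of the hypersurface there pass curves of `m` families, the curves of
each family being plane cubics, or double covers of a line with at most four branch points, which
depend rationally on `x`, and that the vector fields of the tangents to these curves generate the
tangent space at one smooth point under Lie brackets. Then every projective variety dominated by
the hypersurface has an entire curve with Zariski dense image.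

Examples: the families are the sections by coordinate planes (`coordinate_planes`); this applies to
Calabi-Yau hypersurfaces of degree `(2, …, 2; 3, …, 3)` in products `(ℙ¹)ᵃ × (ℙ²)ᵇ`. If all planes
contain the direction of one coordinate, then there is no condition at a point
(`distinguished_coordinate`); this applies to triple covers of `(ℙ¹)ⁿ`.

Idea of the proof.  Consider the points of the hypersurface over the field of meromorphic functions
on `ℂ` which specialize to the given smooth point, and let `P` be one of maximal transcendence
degree. If a polynomial vanishes at `P` and its derivative along the tangents to the curves of a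
family does not, then the curve of this family through `P` has a point which is transcendental over
the field of `P`, by a theorem on meromorphic points of cubics `y² = x³ + a x + b`, and on the
component through `P`; this contradicts the choice of `P`. So the closure of `P` is invariant under
the vector fields, and it is the whole hypersurface.
-/

set_option autoImplicit false

namespace Pool.Agent.Results.MP_1209e6_ag.GenusOneFamilies

open MvPolynomial Pool.Agent.W599.CB Pool.Agent.W572.G Pool.Agent.TH178.GM

/-- Let `F` be an irreducible polynomial in `n` variables and `r` a smooth point of the hypersurface
`F = 0`. Let `m` families of curves of genus at most one on the hypersurface be given, regular at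
`r`, whose velocity fields generate the tangent space at `r` under Lie brackets. Let `X ⊆ ℙ^N` be a
projective variety dominated by the hypersurface, that is, the Zariski closure of its image under a
rational map `[ξ₀ : ... : ξ_N]`. Then some holomorphic map `ℂ → X` has a Zariski dense image. -/
theorem result (n N m : ℕ) (F : MvPolynomial (Fin n) ℂ) (hF : Irreducible F)
    (r : Fin n → ℂ) (hr : eval r F = 0) (hsmooth : ∃ l, eval r (pderiv l F) ≠ 0)
    (c : Fin m → CurveFamily F) (hreg : ∀ i, value r 0 0 (c i).den ≠ 0)
    (hgen : TangentGenerating F (fun i => (c i).velocity) r)
    (ξ : Fin (N + 1) → MvPolynomial (Fin n) ℂ)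
    (hξ : (ratImage {v | eval v F = 0} ξ).Nonempty) :
    IsBrodySpecial (zariskiClosure (ratImage {v | eval v F = 0} ξ)) :=
  brodySpecial_of_families F hF r hr hsmooth c hreg hgen ξ hξ

/-- The case of the sections by the planes of the coordinates `x_(q i)`, `x_(p i)`: these are plane
cubics, or double covers of a line with at most four branch points. -/
theorem coordinate_planes (n N m : ℕ) (F : MvPolynomial (Fin n) ℂ) (hF : Irreducible F)
    (r : Fin n → ℂ) (hr : eval r F = 0) (hsmooth : ∃ l, eval r (pderiv l F) ≠ 0)
    (q p : Fin m → Fin n) (hqp : ∀ i, GenusOnePair F (q i) (p i))
    (hgen : TangentGenerating F (fun i => coordinateField F (q i) (p i)) r)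
    (ξ : Fin (N + 1) → MvPolynomial (Fin n) ℂ)
    (hξ : (ratImage {v | eval v F = 0} ξ).Nonempty) :
    IsBrodySpecial (zariskiClosure (ratImage {v | eval v F = 0} ξ)) :=
  brodySpecial_planes F hF r hr hsmooth q p hqp hgen ξ hξ

/-- The case of a coordinate `y = x_(q₀)` such that all sections by the planes of `y` and another
coordinate `t` are of genus at most one: for every `t`, the irreducible polynomial `F` has degree at
most three in `(y, t)` jointly, or degree at most two in one of these variables and a discriminant
of degree at most four in the other. -/
theorem distinguished_coordinate (n N : ℕ) (F : MvPolynomial (Fin n) ℂ) (hF : Irreducible F)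
    (q₀ : Fin n) (hdeg : degreeOf q₀ F ≠ 0)
    (hpair : ∀ p, p ≠ q₀ → GenusOnePair F q₀ p ∨ GenusOnePair F p q₀)
    (ξ : Fin (N + 1) → MvPolynomial (Fin n) ℂ)
    (hξ : (ratImage {v | eval v F = 0} ξ).Nonempty) :
    IsBrodySpecial (zariskiClosure (ratImage {v | eval v F = 0} ξ)) :=
  brodySpecial_hub F hF q₀ hdeg hpair ξ hξ

end Pool.Agent.Results.MP_1209e6_ag.GenusOneFamilies
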