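import Pool.Agent.TH585.SV.Fib12

/-!
# Campana's analytic conjecture for varieties with a highly ramified morphism to projective space

Let `X` be a projective variety with a morphism `f : X → ℙⁿ`, `n ≥ 1`, whose image has positive
dimension; the image may be any subvariety, and the fibres of `f` may be any varieties, of any
dimension (for instance abelian, rational, or of general type), so that `X` can contain many entire
curves. Let `ℓ i = 0` be finitely many hyperplanes of `ℙⁿ`, in arbitrary position, which form an
arrangement that is not reducible: there are no coordinates of `ℙⁿ`, divided into two nonempty groups,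
such that each `ℓ i` uses only one group (for instance `n + 2` hyperplanes in general position).
Suppose that `f` is ramified to order at least `m` over the arrangement, where

  `m > n (n + 1) (n + 2) / 2`.

This means that the contact orders of each arc of `X` with the hyperplanes are all zero, or one of
them is at least `m`; if `X` is smooth it is enough that each component of the pullback of the
arrangement has multiplicity at least `m` in the pullback of one of the hyperplanes. The bound does
not depend on the number of hyperplanes, nor on `X`. Finally the image of `f` is not contained in the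
exceptional set of the arrangement: the hyperplanes, and the proper linear subspaces which are spanned
by the common zeros of the `ℓ i`, `i ∈ κ`, and the common zeros of the `ℓ i`, `i ∉ κ`; for instance it
is not contained in a hyperplane of `ℙⁿ`, (2) of the theorem.

The theorem: `X` is not special, and `X` is not Brody-special. So Campana's conjecture (Q1) holds for
`X`, and also for all closed subvarieties of `X` whose image in `ℙⁿ` is neither a point nor contained
in the exceptional set (the hypotheses hold for these subvarieties).

The language of the starting repository is used. `X` is a closed subset of `ℙᴺ × ℙⁿ` (`BiSet`), `f`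
the second projection, `K` the function field of `X` and `(a, b)` the generic point in homogeneous
coordinates. `Special` (with empty boundary) is the definition of the starting file
`Pool.Agent.W602.GT.SpecDefs`: for `p ≥ 1` there is no nonzero rational `p`-form `θ` such that for some
`M > 0` there are holomorphic multiples `g j * θ ^ M` (regular at all prime divisors of all models)
with `p` algebraically independent ratios; this says `κ (X', F) < p` for all coherent subsheaves
`F` of rank one of the sheaf of `p`-forms on a resolution `X'`, `p ≥ 1`.

Proof. The Bogomolov sheaf is given by the `d`-forms of the image, `d` its dimension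
(`Pool.Agent.TH585.SV`, files `Blk`, `Ord`, `Fib` to `Fib6`, `Fib10`, `Fib11`): the sections are powers
of a generalised Wronskian, whose rows are a basis of the linear system, the derivatives along `d`
vector fields and words in the first order operators of helper152 (`Pool.Agent.TH152.HY.Words`),
divided by products of linear forms; it is a function of `d` arbitrary vector fields of `X`. The
projection of an entire curve in `X` to `ℙⁿ` is constant or contained in the exceptional set, by the
theorem of helper152 on entire curves (`Pool.Agent.TH152.HY.Brody`, an application of Nevanlinna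
theory).
-/

set_option autoImplicit false

open FF MvPolynomial Pool.Agent.W602.GT Pool.Agent.W602.Cov Pool.Agent.W602.Cov.R
open Pool.Agent.W602.Cov.Cover Pool.Agent.TH152.HY

namespace Pool.Agent.Results.MP_1209e6_ag.HighlyRamifiedFibrations

/-- The projection of `X` to `ℙⁿ` is ramified to order at least `m` over the arrangement: for every
point of `X` over a field `L` with a discrete valuation `P`, not over the arrangement, the contact
orders `w i` with the hyperplanes `ℓ i = 0` are all zero or one of them is at least `m`. -/
def RamifiedOver {N n q : ℕ} (X : BiSet N n) (ℓ : Fin q → Form n) (m : ℕ) : Prop :=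
  ∀ (L : Type) [Field L] [Algebra ℂ L] (a : Fin (N + 1) → L) (b : Fin (n + 1) → L), X.Mem a b →
    (∀ i, formK (ℓ i) b ≠ 0) → ∀ (P : Place ℂ L) (c : ℤ) (w : Fin q → ℕ), Norm P b c →
    (∀ i, P.ord (formK (ℓ i) b) = c + w i) → w ≠ 0 → ∃ i, m ≤ w i

/-- `X` is Brody-special: there is a holomorphic map from the complex plane to `X`, given by entire
functions `u`, `v` as homogeneous coordinates, whose image is Zariski dense in `X`. -/
def BrodySpecial {N n : ℕ} (X : BiSet N n) : Prop :=
  ∃ (u : ℂ → Fin (N + 1) → ℂ) (v : ℂ → Fin (n + 1) → ℂ), (∀ j, Differentiable ℂ fun z => u z j) ∧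
    (∀ j, Differentiable ℂ fun z => v z j) ∧ (∀ z, X.Mem (u z) (v z)) ∧
    ∀ (G : BiPoly N n) (D D' : ℕ), BiHom G D D' → (∀ z, eval (Sum.elim (u z) (v z)) G = 0) →
      ∀ u' v', X.Mem u' v' → eval (Sum.elim u' v') G = 0

/-- Let `ℓ i = 0` be finitely many hyperplanes in `ℙⁿ`, `n ≥ 1`, which form an arrangement which is
not reducible, and let `n (n + 1) (n + 2) / 2 < m`.

(1) Let `X` be a closed subset of `ℙᴺ × ℙⁿ`, irreducible with function field `K` and generic point
`(a, b)`, of dimension `w`, whose projection to `ℙⁿ` is ramified to order at least `m` over the
arrangement, and such that the image of the projection is not a point and is not contained in the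
exceptional set of the arrangement. Then `X` is neither special nor Brody-special.

(2) The image of `X` is not contained in the exceptional set if it is not contained in a hyperplane
(and all `ℓ i` are nonzero). -/
theorem result (n q m : ℕ) (hn : 1 ≤ n) (ℓ : Fin q → Form n) (hr : ¬ Reducible ℓ)
    (hm : n * (n + 1) * (n + 2) < 2 * m) :
    (∀ (N w : ℕ) (X : BiSet N n) (K : Type) [Field K] [Algebra ℂ K] (a : Fin (N + 1) → K)
      (b : Fin (n + 1) → K), RamifiedOver X ℓ m → X.FunctionField K a b →
      Algebra.trdeg ℂ K = w → (∃ i j, b j ≠ 0 ∧ ∀ t : ℂ, b i ≠ t • b j) → ¬ Exc ℓ b →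
      ¬ Special ℂ K w (fun _ => False) ∧ ¬ BrodySpecial X) ∧
    ∀ (K : Type) [Field K] [Algebra ℂ K] (b : Fin (n + 1) → K), (∀ i, ℓ i ≠ 0) →
      LinearIndependent ℂ b → ¬ Exc ℓ b := by
  refine ⟨fun N w X K _ _ a b hram hK hw hpos hE => ?_, fun _ _ _ _ hℓ hb => not_exc hℓ hr hb⟩
  have hbot : IntermediateField.adjoin ℂ {f : K | ∃ i j, b j ≠ 0 ∧ f = b i / b j} ≠ ⊥ := by
    obtain ⟨i, j, hj, hij⟩ := hpos
    intro h0
    have h1 : b i / b j ∈ IntermediateField.adjoin ℂ {f : K | ∃ i j, b j ≠ 0 ∧ f = b i / b j} :=
      IntermediateField.subset_adjoin ℂ _ ⟨i, j, hj, rfl⟩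
    rw [h0, IntermediateField.mem_bot] at h1
    obtain ⟨t, ht⟩ := h1
    apply hij t
    rw [Algebra.smul_def, ht, div_mul_cancel₀ _ hj]
  refine ⟨fun hsp => ?_, Pool.Agent.TH585.SV.not_brody hr hm hram hK hbot hE⟩
  -- the dimension of the image
  have hle : Algebra.trdeg ℂ (Pool.Agent.TH585.SV.rf (Submodule.span ℂ (Set.range b))) ≤ w := by
    rw [← hw]
    exact trdeg_le_of_injective
      (Pool.Agent.TH585.SV.rf (Submodule.span ℂ (Set.range b))).val Subtype.val_injective
  obtain ⟨d, hd⟩ := Cardinal.lt_aleph0.1 (lt_of_le_of_lt hle Cardinal.natCast_lt_aleph0)
  have hd1 : 1 ≤ d := Pool.Agent.TH585.SV.trdeg_pos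
    (by rw [Pool.Agent.TH585.SV.rf_span]; exact hbot) hd
  rw [hd] at hle
  have hdw : d ≤ w := by exact_mod_cast hle
  obtain ⟨e, rfl⟩ := Nat.exists_eq_add_of_le hdw
  exact hsp d hd1 (Pool.Agent.TH585.SV.bog_of_ram hn hr hm hram hK.mem hw hd1 hd hE)

end Pool.Agent.Results.MP_1209e6_ag.HighlyRamifiedFibrations
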